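import Mathlib
import Pool.Agent.TH165.IDX.Geo2

/-!
# Shokurov's index conjecture on toric germs with non-toric boundaries

`ToricGerm n K`: an affine toric variety of dimension `n` with function field `K` and with a fixed
point `P`, given by a strictly convex rational cone of dimension `n` (simplicial or not). The
boundary `B` is an arbitrary effective divisor on it. The minimal log discrepancy is taken over all
prime divisors over the germ.
-/

set_option autoImplicit false

namespace Pool.Agent.Results.MP_dd9dc3_ag.ToricIndex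

open Pool.Agent.TH165.ACC Pool.Agent.TH165.IDX Pool.Agent.W497.Mld Pool.Agent.H436R3.KT

/-- For every `n`, every real `ε ≥ 0` and every finite set `Γ` of rational numbers there is a
positive integer `I` such that `I (K_X + B)` is Cartier near `P` for all toric germs `X ∋ P` of
dimension `n` and all boundaries `B` with coefficients in `Γ` and minimal log discrepancy `ε` at
`P`, if `B` is nondegenerate at `P` or the minimal log discrepancy is the log discrepancy of a
monomial valuation. -/
theorem result (n : ℕ) (ε : ℝ) (hε : 0 ≤ ε) (Γ : Finset ℚ) :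
    ∃ I : ℕ, 0 < I ∧ ∀ (g : ToricGerm n (FractionRing (MvPolynomial (Fin n) ℂ)))
      (B : EffDiv g.X) (e : LocEq B g.P),
      CoeffIn B {x : ℝ | ∃ q ∈ Γ, (q : ℝ) = x} → Pool.Agent.W497.Mld.IsMld e ε →
      (Computed e ε ∨ NondegBoundary g B) → CartierAt B g.P I := by
  classical
  let I0 : ℕ := ∏ q ∈ Γ, q.den
  have hI0 : 0 < I0 := Finset.prod_pos fun q _ => q.pos
  let A : ℕ := ∑ q ∈ Γ, I0 * q.num.toNat
  obtain ⟨I, hI, h⟩ := geo_index2 (n := n) (K := FractionRing (MvPolynomial (Fin n) ℂ))
    (Γ := {x : ℝ | 0 ≤ x ∧ ∃ q ∈ Γ, (q : ℝ) = x}) (A := A) hI0 (by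
      rintro x ⟨hx, q, hq, rfl⟩
      have hq0 : 0 ≤ q := by exact_mod_cast hx
      obtain ⟨k, hk⟩ : q.den ∣ I0 := Finset.dvd_prod_of_mem (fun q : ℚ => q.den) hq
      refine ⟨k * q.num.toNat, ?_, ?_⟩
      · refine le_trans ?_ (Finset.single_le_sum (f := fun q : ℚ => I0 * q.num.toNat)
          (fun _ _ => Nat.zero_le _) hq)
        exact Nat.mul_le_mul_right _ (Nat.le_of_dvd hI0 ⟨q.den, by rw [hk]; ring⟩)
      · have h1 : ((q.num.toNat : ℕ) : ℤ) = q.num :=
          Int.toNat_of_nonneg (Rat.num_nonneg.2 hq0)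
        have h2 : (q : ℝ) * (q.den : ℝ) = (q.num : ℝ) := by exact_mod_cast Rat.mul_den_eq_num q
        have h3 : ((q.num.toNat : ℕ) : ℝ) = (q.num : ℝ) := by exact_mod_cast h1
        push_cast
        rw [h3, ← h2, hk]
        push_cast
        ring) hε
  refine ⟨I, hI, fun g B e hB hm hc => h g B e (fun v hv h0 => ?_) hm hc⟩
  exact ⟨mult_nonneg B v, hB v hv h0⟩

end Pool.Agent.Results.MP_dd9dc3_ag.ToricIndex
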